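import Pool.Agent.Y75.MQ.Prod

/-!
Systems of supports indexed by an arbitrary `Γ`-set: definitions.
-/

namespace Pool.Agent.Y483.PW

open Pool.Agent.Y483 Pool.Agent.Y110.KW Pool.Agent.Y75.MQ CategoryTheory DirectSum Pointwise

/-- A functor has transfers along pairs if for each action of a group `G` on a set `A` and each two
cocycles `c, d : G × A → K` which agree, for each `g`, for all but finitely many `a` (`FinPair`),
there is a linear map `Φ : E(G) → E(K)` with the following property. If `j : G₀ → G` is a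
homomorphism whose image fixes the elements of a finite set `Y`, and `c(j(g), a) = d(j(g), a)` for
all `g` and all `a` outside `Y`, then `Φ(E(j) x)` is the sum over `a ∈ Y` of
`E(c(j(·), a)) x - E(d(j(·), a)) x`. -/
def HasPT (E : GrpCat.{0} ⥤ ModuleCat.{0} ℚ) : Prop :=
  ∀ (G A K : Type) [Group G] [Group K] (κ : FinPair G A K),
    ∃ Φ : E.obj (GrpCat.of G) →ₗ[ℚ] E.obj (GrpCat.of K),
      ∀ (G₀ : Type) [Group G₀] (j : G₀ →* G) (Y : Finset A) (lc ld : A → (G₀ →* K)),
        (∀ a ∈ Y, ∀ g, κ.σ (j g) a = a ∧ lc a g = κ.c (j g) a ∧ ld a g = κ.d (j g) a) →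
        (∀ a ∉ Y, ∀ g, κ.c (j g) a = κ.d (j g) a) → ∀ x : E.obj (GrpCat.of G₀),
          Φ (emap E j x) = ∑ a ∈ Y, (emap E (lc a) x - emap E (ld a) x)

/-- A group `N` with an action of `Γ` and endomorphisms `e S` for the subsets `S` of a `Γ`-set `V`
with `e_S e_T = e_{S ∩ T}` and `γ e_S = e_{γ S} γ`, such that each element is fixed by `e_S` for some
finite `S`. -/
structure Sys (Γ N V : Type) [Group Γ] [Group N] [MulAction Γ V] where
  /-- The action. -/
  φ : Γ →* MulAut N
  /-- The endomorphisms. -/
  e : Set V → (N →* N)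
  inter : ∀ (S T : Set V) (n : N), e S (e T n) = e (S ∩ T) n
  equivariant : ∀ (γ : Γ) (S : Set V) (n : N), φ γ (e S n) = e (γ • S) (φ γ n)
  finite : ∀ n : N, ∃ S : Finset V, e (S : Set V) n = n

namespace Sys

variable {Γ N V : Type} [Group Γ] [Group N] [MulAction Γ V] (s : Sys Γ N V)

/-- The semidirect product. -/
abbrev G : Type := N ⋊[s.φ] Γ

/-- The map `(n, γ) ↦ (e_S n, γ)` of the set `N ⋊ Γ`. -/
def ep (S : Set V) (w : s.G) : s.G := ⟨s.e S w.left, w.right⟩

/-- The subgroup of the elements `(n, γ)` such that `γ` fixes the elements of `σ`. -/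
def fixG (σ : Finset V) : Subgroup s.G where
  carrier := {w | ∀ v ∈ σ, w.right • v = v}
  mul_mem' {a b} ha hb v hv := by
    rw [SemidirectProduct.mul_right, mul_smul, hb v hv, ha v hv]
  one_mem' v _ := by rw [SemidirectProduct.one_right, one_smul]
  inv_mem' {a} ha v hv := by
    rw [SemidirectProduct.inv_right, inv_smul_eq_iff, ha v hv]

/-- The subgroup of the elements `(n, γ)` such that `e_σ n = n` and `γ` fixes the elements
of `σ`. -/
def supG (σ : Finset V) : Subgroup s.G where
  carrier := {w | s.e σ w.left = w.left ∧ ∀ v ∈ σ, w.right • v = v}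
  mul_mem' {a b} ha hb := by
    have h : a.right • (σ : Set V) = σ := by
      ext v
      constructor
      · rintro ⟨w, hw, rfl⟩
        change a.right • w ∈ _
        rw [ha.2 w hw]
        exact hw
      · intro hv
        exact ⟨v, hv, ha.2 v hv⟩
    refine ⟨?_, fun v hv => ?_⟩
    · rw [SemidirectProduct.mul_left, map_mul, ha.1]
      congr 1
      conv_lhs => rw [← hb.1, s.equivariant, h, s.inter, Set.inter_self]
      conv_rhs => rw [← hb.1, s.equivariant, h]
    · rw [SemidirectProduct.mul_right, mul_smul, hb.2 v hv, ha.2 v hv]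
  one_mem' := ⟨by rw [SemidirectProduct.one_left, map_one],
    fun v _ => by rw [SemidirectProduct.one_right, one_smul]⟩
  inv_mem' {a} ha := by
    have h : a.right⁻¹ • (σ : Set V) = σ := by
      ext v
      constructor
      · rintro ⟨w, hw, rfl⟩
        change a.right⁻¹ • w ∈ _
        rw [inv_smul_eq_iff.mpr (ha.2 w hw).symm]
        exact hw
      · intro hv
        exact ⟨v, hv, inv_smul_eq_iff.mpr (ha.2 v hv).symm⟩
    refine ⟨?_, fun v hv => ?_⟩
    · have h2 : s.e (σ : Set V) a.left⁻¹ = a.left⁻¹ := by rw [map_inv, ha.1]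
      rw [SemidirectProduct.inv_left]
      conv_lhs => rw [← h2, s.equivariant, h, s.inter, Set.inter_self]
      conv_rhs => rw [← h2, s.equivariant, h]
    · rw [SemidirectProduct.inv_right, inv_smul_eq_iff, ha.2 v hv]

/-- The homomorphism `l ↦ (e_S n, γ)`, where `f(l) = (n, γ)`, if the `γ` preserve `S`. -/
def cut {L : Type} [Group L] (f : L →* s.G) (S : Set V) (h : ∀ l, (f l).right • S = S) :
    L →* s.G where
  toFun l := s.ep S (f l)
  map_one' := by
    rw [map_one]
    apply SemidirectProduct.ext
    · exact map_one (s.e S)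
    · rfl
  map_mul' a b := by
    rw [map_mul]
    apply SemidirectProduct.ext
    · change s.e S ((f a).left * s.φ (f a).right (f b).left) =
        s.e S (f a).left * s.φ (f a).right (s.e S (f b).left)
      rw [map_mul, s.equivariant, h a]
    · rfl

/-- The image of `f` fixes the elements of `σ`. -/
def Fix {L : Type} [Group L] (f : L →* s.G) (σ : Finset V) : Prop :=
  ∀ l, ∀ v ∈ σ, (f l).right • v = v

theorem Fix.smul {L : Type} [Group L] {f : L →* s.G} {σ U : Finset V} (h : s.Fix f σ)
    (hU : U ⊆ σ) (l : L) : (f l).right • (U : Set V) = U := by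
  ext v
  constructor
  · rintro ⟨w, hw, rfl⟩
    change (f l).right • w ∈ _
    rw [h l w (hU hw)]
    exact hw
  · intro hv
    exact ⟨v, hv, h l v (hU hv)⟩

open Classical in
/-- The homomorphism `cut`, and the trivial homomorphism if it is not defined. -/
noncomputable def cutT {L : Type} [Group L] (f : L →* s.G) (S : Set V) : L →* s.G :=
  if h : ∀ l, (f l).right • S = S then s.cut f S h else 1

theorem cutT_eq {L : Type} [Group L] (f : L →* s.G) (S : Set V) (h : ∀ l, (f l).right • S = S) :
    s.cutT f S = s.cut f S h := by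
  unfold cutT
  rw [dif_pos h]

theorem cutT_apply {L : Type} [Group L] (f : L →* s.G) (S : Set V)
    (h : ∀ l, (f l).right • S = S) (l : L) : s.cutT f S l = s.ep S (f l) := by
  rw [cutT_eq s f S h]
  rfl

/-- The alternating sum of the images of `u` under the homomorphisms `cut`, for the subsets
of `σ`. -/
noncomputable def basQ (j : ℕ) {L : Type} [Group L] (f : L →* s.G) (σ : Finset V) (u : HQ j L) :
    HQ j s.G :=
  ∑ U ∈ σ.powerset, ((-1 : ℚ) ^ (σ.card + U.card)) • hqMap (s.cutT f (U : Set V)) j u

variable {B : Type} (d : B → ℕ)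

/-- The alternating sum, for families. -/
noncomputable def bas {L : Type} [Group L] (f : L →* s.G) (σ : Finset V) (u : HB d L) :
    HB d s.G :=
  ∑ U ∈ σ.powerset, ((-1 : ℚ) ^ (σ.card + U.card)) • hbMap d (s.cutT f (U : Set V)) u

end Sys

end Pool.Agent.Y483.PW
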