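import Pool.Agent.Y483.PW.Def

/-!
The kernel formula for systems of supports: the induction.
-/

namespace Pool.Agent.Y483.PW

open Pool.Agent.Y483 Pool.Agent.Y110.KW Pool.Agent.Y75.MQ CategoryTheory DirectSum Pointwise
open scoped Classical

section Alt

variable {V M M' : Type*} [AddCommGroup M] [Module ℚ M] [AddCommGroup M'] [Module ℚ M']

/-- Alternating sums over the subsets. -/
noncomputable def alt (σ : Finset V) (F : Finset V → M) : M :=
  ∑ U ∈ σ.powerset, ((-1 : ℚ) ^ (σ.card + U.card)) • F U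

theorem alt_congr {σ : Finset V} {F F' : Finset V → M} (h : ∀ U, U ⊆ σ → F U = F' U) :
    alt σ F = alt σ F' := by
  apply Finset.sum_congr rfl
  intro U hU
  rw [h U (Finset.mem_powerset.mp hU)]

theorem alt_insert {σ : Finset V} {a : V} (ha : a ∉ σ) (F : Finset V → M) :
    alt (insert a σ) F = alt σ (fun U => F (insert a U) - F U) := by
  unfold alt
  rw [Finset.sum_powerset_insert ha, ← Finset.sum_add_distrib]
  apply Finset.sum_congr rfl
  intro U hU
  have haU : a ∉ U := fun h => ha (Finset.mem_powerset.mp hU h)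
  rw [Finset.card_insert_of_notMem ha, Finset.card_insert_of_notMem haU, smul_sub]
  have e1 : (-1 : ℚ) ^ (σ.card + 1 + U.card) = -((-1 : ℚ) ^ (σ.card + U.card)) := by
    rw [show σ.card + 1 + U.card = σ.card + U.card + 1 by ring, pow_succ]; ring
  have e2 : (-1 : ℚ) ^ (σ.card + 1 + (U.card + 1)) = (-1 : ℚ) ^ (σ.card + U.card) := by
    rw [show σ.card + 1 + (U.card + 1) = σ.card + U.card + 1 + 1 by ring, pow_succ, pow_succ]; ring
  rw [e1, e2, neg_smul]
  abel

theorem alt_erase {σ : Finset V} {a : V} (ha : a ∈ σ) (F : Finset V → M) :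
    alt σ F = alt (σ.erase a) (fun U => F (insert a U) - F U) := by
  conv_lhs => rw [← Finset.insert_erase ha]
  exact alt_insert (Finset.notMem_erase a σ) F

theorem alt_map (σ : Finset V) (i : V ↪ V) (F : Finset V → M) :
    alt (σ.map i) F = alt σ (fun U => F (U.map i)) := by
  unfold alt
  symm
  refine Finset.sum_bij (fun U _ => U.map i) ?_ ?_ ?_ ?_
  · intro U hU
    rw [Finset.mem_powerset] at *
    exact Finset.map_subset_map.mpr hU
  · intro U _ U' _ h
    exact Finset.map_injective i h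
  · intro U hU
    rw [Finset.mem_powerset] at hU
    refine ⟨σ.filter (fun v => i v ∈ U), Finset.mem_powerset.mpr (Finset.filter_subset _ _), ?_⟩
    ext v
    simp only [Finset.mem_map, Finset.mem_filter]
    constructor
    · rintro ⟨w, ⟨_, hw⟩, rfl⟩
      exact hw
    · intro hv
      obtain ⟨w, hw, rfl⟩ := Finset.mem_map.mp (hU hv)
      exact ⟨w, ⟨hw, hv⟩, rfl⟩
  · intro U _
    simp only [Finset.card_map]

theorem alt_sum {ι : Type*} (σ : Finset V) (Y : Finset ι) (F : ι → Finset V → M) :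
    alt σ (fun U => ∑ a ∈ Y, F a U) = ∑ a ∈ Y, alt σ (F a) := by
  unfold alt
  rw [Finset.sum_comm]
  apply Finset.sum_congr rfl
  intro U _
  rw [Finset.smul_sum]

theorem alt_sub (σ : Finset V) (F F' : Finset V → M) :
    alt σ (fun U => F U - F' U) = alt σ F - alt σ F' := by
  unfold alt
  rw [← Finset.sum_sub_distrib]
  apply Finset.sum_congr rfl
  intro U _
  rw [smul_sub]

theorem map_alt (g : M →ₗ[ℚ] M') (σ : Finset V) (F : Finset V → M) :
    g (alt σ F) = alt σ (fun U => g (F U)) := by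
  unfold alt
  rw [map_sum]
  apply Finset.sum_congr rfl
  intro U _
  rw [map_smul]

end Alt

namespace Sys

variable {Γ N V : Type} [Group Γ] [Group N] [MulAction Γ V] (s : Sys Γ N V)

theorem bas_eq {B : Type} (d : B → ℕ) {L : Type} [Group L] (f : L →* s.G) (σ : Finset V)
    (u : HB d L) : s.bas d f σ u = alt σ (fun U => hbMap d (s.cutT f (U : Set V)) u) := rfl

theorem e_mono {S T : Set V} (h : S ⊆ T) {n : N} (hn : s.e S n = n) : s.e T n = n := by
  rw [← hn, s.inter, Set.inter_eq_right.mpr h]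

/-- The restriction of the system to the stabilizer of `x`, where the support at `x` is kept. -/
noncomputable def sub (x : V) : Sys (MulAction.stabilizer Γ x) N V where
  φ := s.φ.comp (MulAction.stabilizer Γ x).subtype
  e S := s.e (insert x S)
  inter S T n := by rw [s.inter, ← Set.insert_inter_distrib]
  equivariant γ S n := by
    change s.φ γ.1 _ = _
    rw [s.equivariant, Set.smul_set_insert, γ.2]
    rfl
  finite n := by
    obtain ⟨S, hS⟩ := s.finite n
    exact ⟨S, s.e_mono (Set.subset_insert _ _) hS⟩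

variable (x : V)

/-- The inclusion. -/
def incl : (s.sub x).G →* s.G where
  toFun w := ⟨w.left, w.right.1⟩
  map_one' := rfl
  map_mul' _ _ := rfl

theorem stab_compl (γ : MulAction.stabilizer Γ x) : γ.1 • ({x}ᶜ : Set V) = {x}ᶜ := by
  rw [Set.smul_set_compl, Set.smul_set_singleton, γ.2]

/-- The endomorphism which kills the support at `x`. -/
def kill : (s.sub x).G →* (s.sub x).G where
  toFun w := ⟨s.e {x}ᶜ w.left, w.right⟩
  map_one' := by
    apply SemidirectProduct.ext
    · exact map_one (s.e _)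
    · rfl
  map_mul' a b := by
    apply SemidirectProduct.ext
    · change s.e {x}ᶜ (a.left * s.φ a.right.1 b.left) =
        s.e {x}ᶜ a.left * s.φ a.right.1 (s.e {x}ᶜ b.left)
      rw [map_mul, s.equivariant, stab_compl x a.right]
    · rfl

/-- An element which maps `x` to the point `a` of its orbit. -/
noncomputable def tt (a : MulAction.orbit Γ x) : Γ := Classical.choose a.2

theorem tt_smul (a : MulAction.orbit Γ x) : tt (Γ := Γ) x a • x = a.1 := Classical.choose_spec a.2

/-- The action of `N ⋊ Γ` on the orbit. -/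
def orbPerm : s.G →* Equiv.Perm (MulAction.orbit Γ x) :=
  (MulAction.toPermHom Γ (MulAction.orbit Γ x)).comp SemidirectProduct.rightHom

theorem orbPerm_coe (w : s.G) (a : MulAction.orbit Γ x) :
    (s.orbPerm x w a).1 = w.right • a.1 := rfl

/-- The first cocycle. -/
noncomputable def cc (w : s.G) (a : MulAction.orbit Γ x) : (s.sub x).G :=
  ⟨s.φ (tt x (s.orbPerm x w a))⁻¹ w.left,
    ⟨(tt x (s.orbPerm x w a))⁻¹ * w.right * tt x a, by
      rw [MulAction.mem_stabilizer_iff, mul_smul, mul_smul, tt_smul, inv_smul_eq_iff, tt_smul]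
      rfl⟩⟩

theorem cc_mul (g h : s.G) (a : MulAction.orbit Γ x) :
    s.cc x (g * h) a = s.cc x g (s.orbPerm x h a) * s.cc x h a := by
  have e1 : s.orbPerm x (g * h) a = s.orbPerm x g (s.orbPerm x h a) := by
    rw [map_mul, Equiv.Perm.mul_apply]
  apply SemidirectProduct.ext
  · change s.φ (tt x (s.orbPerm x (g * h) a))⁻¹ (g.left * s.φ g.right h.left) =
      s.φ (tt x (s.orbPerm x g (s.orbPerm x h a)))⁻¹ g.left *
        s.φ ((tt x (s.orbPerm x g (s.orbPerm x h a)))⁻¹ * g.right * tt x (s.orbPerm x h a))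
          (s.φ (tt x (s.orbPerm x h a))⁻¹ h.left)
    rw [e1, map_mul]
    congr 1
    rw [← MulAut.mul_apply, ← MulAut.mul_apply, ← map_mul, ← map_mul]
    congr 2
    group
  · apply Subtype.ext
    change (tt x (s.orbPerm x (g * h) a))⁻¹ * (g.right * h.right) * tt x a =
      (tt x (s.orbPerm x g (s.orbPerm x h a)))⁻¹ * g.right * tt x (s.orbPerm x h a) *
        ((tt x (s.orbPerm x h a))⁻¹ * h.right * tt x a)
    rw [e1]
    group

theorem cc_kill (w : s.G) (a : MulAction.orbit Γ x) (S : Set V) (hS : s.e S w.left = w.left)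
    (h : (s.orbPerm x w a).1 ∉ S) : s.cc x w a = s.kill x (s.cc x w a) := by
  apply SemidirectProduct.ext
  · change s.φ (tt x (s.orbPerm x w a))⁻¹ w.left =
      s.e {x}ᶜ (s.φ (tt x (s.orbPerm x w a))⁻¹ w.left)
    rw [← hS, s.equivariant, s.inter]
    congr 2
    symm
    rw [Set.inter_eq_right]
    intro v hv hvx
    rw [Set.mem_singleton_iff] at hvx
    subst hvx
    rw [Set.mem_inv_smul_set_iff, tt_smul] at hv
    exact h hv
  · rfl

/-- The pair of cocycles. -/
noncomputable def pairC : FinPair s.G (MulAction.orbit Γ x) (s.sub x).G where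
  σ := s.orbPerm x
  c := s.cc x
  d w a := s.kill x (s.cc x w a)
  mul_c := s.cc_mul x
  mul_d g h a := by rw [s.cc_mul, map_mul]
  fin w := by
    obtain ⟨S, hS⟩ := s.finite w.left
    have hfin : {a : MulAction.orbit Γ x | (s.orbPerm x w a).1 ∈ S}.Finite := by
      apply Set.Finite.preimage (f := fun a : MulAction.orbit Γ x => (s.orbPerm x w a).1)
        (s := (S : Set V)) _ S.finite_toSet
      intro a _ b _ hab
      exact (s.orbPerm x w).injective (Subtype.ext hab)
    refine hfin.subset ?_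
    intro a ha
    by_contra hcon
    exact ha (s.cc_kill x w a S hS hcon)

/-- The label at a fixed point. -/
noncomputable def lbl {L : Type} [Group L] (f : L →* s.G) (a : MulAction.orbit Γ x) :
    L →* (s.sub x).G :=
  if hf : ∀ l, s.orbPerm x (f l) a = a then
    MonoidHom.mk' (fun l => s.cc x (f l) a) (fun l l' => by rw [map_mul, s.cc_mul, hf l'])
  else 1

theorem lbl_apply {L : Type} [Group L] {f : L →* s.G} {a : MulAction.orbit Γ x}
    (hf : ∀ l, s.orbPerm x (f l) a = a) (l : L) : s.lbl x f a l = s.cc x (f l) a := by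
  unfold lbl
  rw [dif_pos hf]
  rfl

/-- The translation of `a` to `x`. -/
noncomputable def tm (a : MulAction.orbit Γ x) : V ↪ V :=
  ⟨fun v => (tt (Γ := Γ) x a)⁻¹ • v, MulAction.injective _⟩

theorem coe_tm (a : MulAction.orbit Γ x) (U : Finset V) :
    ((U.map (tm (Γ := Γ) x a) : Finset V) : Set V) = (tt (Γ := Γ) x a)⁻¹ • (U : Set V) := by
  rw [Finset.coe_map]
  rfl

theorem insert_tm (a : MulAction.orbit Γ x) (U : Finset V) :
    insert x ((U.map (tm (Γ := Γ) x a) : Finset V) : Set V) =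
      (tt (Γ := Γ) x a)⁻¹ • ((insert a.1 U : Finset V) : Set V) := by
  rw [coe_tm, Finset.coe_insert, Set.smul_set_insert]
  congr 1
  rw [eq_comm, inv_smul_eq_iff, tt_smul]

section F

variable {L : Type} [Group L] {f : L →* s.G} {σ : Finset V}

theorem Fix.orb (hf : s.Fix f σ) {a : MulAction.orbit Γ x} (ha : a.1 ∈ σ) (l : L) :
    s.orbPerm x (f l) a = a := Subtype.ext (hf l a.1 ha)

theorem Fix.cut (hf : s.Fix f σ) {U : Finset V} (hU : U ⊆ σ) : s.Fix (s.cutT f (U : Set V)) σ := by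
  intro l v hv
  rw [s.cutT_apply f _ (hf.smul s hU)]
  exact hf l v hv

theorem lbl_left {a : MulAction.orbit Γ x} (hf : ∀ l, s.orbPerm x (f l) a = a) (l : L) :
    (s.lbl x f a l).left = s.φ (tt x a)⁻¹ (f l).left := by
  rw [s.lbl_apply x hf]
  change s.φ (tt x (s.orbPerm x (f l) a))⁻¹ (f l).left = _
  rw [hf]

theorem lbl_right {a : MulAction.orbit Γ x} (hf : ∀ l, s.orbPerm x (f l) a = a) (l : L) :
    (s.lbl x f a l).right.1 = (tt x a)⁻¹ * (f l).right * tt x a := by
  rw [s.lbl_apply x hf]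
  change (tt x (s.orbPerm x (f l) a))⁻¹ * (f l).right * tt x a = _
  rw [hf]

theorem fix_lbl (hf : s.Fix f σ) {a : MulAction.orbit Γ x} (ha : a.1 ∈ σ) {τ : Finset V}
    (hτ : τ ⊆ σ) : (s.sub x).Fix (s.lbl x f a) (τ.map (tm x a)) := by
  intro l v hv
  obtain ⟨w, hw, rfl⟩ := Finset.mem_map.mp hv
  change (s.lbl x f a l).right.1 • ((tt x a)⁻¹ • w) = (tt x a)⁻¹ • w
  rw [s.lbl_right x (hf.orb s x ha), mul_smul, mul_smul, smul_inv_smul, hf l w (hτ hw)]

theorem fix_kill {f' : L →* (s.sub x).G} {τ : Finset V} (h : (s.sub x).Fix f' τ) :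
    (s.sub x).Fix ((s.kill x).comp f') τ := fun l v hv => h l v hv

theorem k1 (hf : s.Fix f σ) {a : MulAction.orbit Γ x} (ha : a.1 ∈ σ) {U : Finset V}
    (hU : U ⊆ σ.erase a.1) :
    s.lbl x (s.cutT f ((insert a.1 U : Finset V) : Set V)) a =
      (s.sub x).cutT (s.lbl x f a) ((U.map (tm x a) : Finset V) : Set V) := by
  have hU' : U ⊆ σ := hU.trans (Finset.erase_subset _ _)
  have hiU : insert a.1 U ⊆ σ := Finset.insert_subset ha hU'
  have hfc := hf.cut s hiU
  ext1 l
  rw [(s.sub x).cutT_apply _ _ ((s.fix_lbl x hf ha hU').smul _ subset_rfl)]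
  apply SemidirectProduct.ext
  · rw [s.lbl_left x (hfc.orb s x ha), s.cutT_apply f _ (hf.smul s hiU)]
    change s.φ (tt x a)⁻¹ (s.e _ (f l).left) = s.e (insert x _) (s.lbl x f a l).left
    rw [s.lbl_left x (hf.orb s x ha), insert_tm, s.equivariant]
  · apply Subtype.ext
    rw [s.lbl_right x (hfc.orb s x ha), s.cutT_apply f _ (hf.smul s hiU)]
    exact (s.lbl_right x (hf.orb s x ha) l).symm

theorem kill_cutT {f' : L →* (s.sub x).G} {U : Finset V} (h : (s.sub x).Fix f' U) :
    (s.kill x).comp ((s.sub x).cutT f' (U : Set V)) =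
      (s.sub x).cutT ((s.kill x).comp f') (U : Set V) := by
  ext1 l
  rw [MonoidHom.comp_apply, (s.sub x).cutT_apply _ _ (h.smul _ subset_rfl),
    (s.sub x).cutT_apply _ _ ((s.fix_kill x h).smul _ subset_rfl)]
  apply SemidirectProduct.ext
  · change s.e {x}ᶜ (s.e (insert x _) (f' l).left) = s.e (insert x _) (s.e {x}ᶜ (f' l).left)
    rw [s.inter, s.inter, Set.inter_comm]
  · rfl

theorem k4 (hf : s.Fix f σ) {a : MulAction.orbit Γ x} (ha : a.1 ∈ σ) {U : Finset V}
    (hU : U ⊆ σ.erase a.1) :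
    (s.incl x).comp ((s.sub x).cutT (s.lbl x f a) ((U.map (tm x a) : Finset V) : Set V)) =
      conjHom (s.cutT f ((insert a.1 U : Finset V) : Set V))
        (SemidirectProduct.inr (tt x a)⁻¹ : s.G) := by
  have hU' : U ⊆ σ := hU.trans (Finset.erase_subset _ _)
  have hiU : insert a.1 U ⊆ σ := Finset.insert_subset ha hU'
  ext1 l
  rw [MonoidHom.comp_apply, (s.sub x).cutT_apply _ _ ((s.fix_lbl x hf ha hU').smul _ subset_rfl)]
  unfold conjHom
  rw [MonoidHom.comp_apply, s.cutT_apply f _ (hf.smul s hiU)]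
  apply SemidirectProduct.ext
  · change s.e (insert x _) (s.lbl x f a l).left =
      ((SemidirectProduct.inr (tt x a)⁻¹ : s.G) * s.ep _ (f l) *
        (SemidirectProduct.inr (tt x a)⁻¹ : s.G)⁻¹).left
    rw [s.lbl_left x (hf.orb s x ha), insert_tm, ← s.equivariant]
    simp [ep]
  · change (s.lbl x f a l).right.1 = ((SemidirectProduct.inr (tt x a)⁻¹ : s.G) * s.ep _ (f l) *
        (SemidirectProduct.inr (tt x a)⁻¹ : s.G)⁻¹).right
    rw [s.lbl_right x (hf.orb s x ha)]
    simp [ep]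

theorem k5 (hf : s.Fix f σ) {a : MulAction.orbit Γ x} (ha : a.1 ∈ σ) {U : Finset V}
    (hU : U ⊆ σ.erase a.1) :
    (s.incl x).comp ((s.sub x).cutT ((s.kill x).comp (s.lbl x f a))
      ((U.map (tm x a) : Finset V) : Set V)) =
      conjHom (s.cutT f (U : Set V)) (SemidirectProduct.inr (tt x a)⁻¹ : s.G) := by
  have hU' : U ⊆ σ := hU.trans (Finset.erase_subset _ _)
  ext1 l
  rw [MonoidHom.comp_apply, (s.sub x).cutT_apply _ _
    ((s.fix_kill x (s.fix_lbl x hf ha hU')).smul _ subset_rfl)]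
  unfold conjHom
  rw [MonoidHom.comp_apply, MonoidHom.comp_apply, s.cutT_apply f _ (hf.smul s hU')]
  apply SemidirectProduct.ext
  · change s.e (insert x _) (s.e {x}ᶜ (s.lbl x f a l).left) =
      ((SemidirectProduct.inr (tt x a)⁻¹ : s.G) * s.ep _ (f l) *
        (SemidirectProduct.inr (tt x a)⁻¹ : s.G)⁻¹).left
    have hset : insert x ((U.map (tm (Γ := Γ) x a) : Finset V) : Set V) ∩ {x}ᶜ =
        (tt (Γ := Γ) x a)⁻¹ • (U : Set V) := by
      rw [Set.insert_inter_of_notMem (by simp), Set.inter_eq_left.mpr, coe_tm]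
      intro v hv hvx
      rw [Set.mem_singleton_iff] at hvx
      subst hvx
      rw [coe_tm, Set.mem_inv_smul_set_iff, tt_smul] at hv
      exact Finset.notMem_erase _ _ (hU hv)
    rw [s.lbl_left x (hf.orb s x ha), s.inter, hset, ← s.equivariant]
    simp [ep]
  · change (s.lbl x f a l).right.1 = ((SemidirectProduct.inr (tt x a)⁻¹ : s.G) * s.ep _ (f l) *
        (SemidirectProduct.inr (tt x a)⁻¹ : s.G)⁻¹).right
    rw [s.lbl_right x (hf.orb s x ha)]
    simp [ep]

theorem k3 (hf : s.Fix f σ) {a : MulAction.orbit Γ x} (ha : a.1 ∈ σ) {U : Finset V}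
    (hU : U ⊆ σ.erase a.1) :
    (s.kill x).comp (s.lbl x (s.cutT f (U : Set V)) a) = s.lbl x (s.cutT f (U : Set V)) a := by
  have hU' : U ⊆ σ := hU.trans (Finset.erase_subset _ _)
  have hfc := hf.cut s hU'
  ext1 l
  rw [MonoidHom.comp_apply, s.lbl_apply x (hfc.orb s x ha)]
  symm
  apply s.cc_kill x _ a U
  · rw [s.cutT_apply f _ (hf.smul s hU')]
    change s.e _ (s.e _ _) = s.e _ _
    rw [s.inter, Set.inter_self]
  · rw [hfc.orb s x ha]
    exact fun h => Finset.notMem_erase _ _ (hU h)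

variable {B : Type} (d : B → ℕ)

/-- The points of `σ` in the orbit of `x`. -/
noncomputable def yy (x : V) (σ : Finset V) : Finset (MulAction.orbit Γ x) :=
  σ.subtype (fun v => v ∈ MulAction.orbit Γ x)

theorem mem_yy {a : MulAction.orbit Γ x} : a ∈ yy (Γ := Γ) x σ ↔ a.1 ∈ σ := Finset.mem_subtype

/-- The transfer of an alternating sum. -/
noncomputable def res (f : L →* s.G) (σ : Finset V) (u : HB d L) : HB d (s.sub x).G :=
  ∑ a ∈ yy (Γ := Γ) x σ, ((s.sub x).bas d (s.lbl x f a) ((σ.erase a.1).map (tm x a)) u -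
    (s.sub x).bas d ((s.kill x).comp (s.lbl x f a)) ((σ.erase a.1).map (tm x a)) u)

theorem incl_res (hf : s.Fix f σ) (u : HB d L) :
    hbMap d (s.incl x) (s.res x d f σ u) = ((yy (Γ := Γ) x σ).card : ℚ) • s.bas d f σ u := by
  unfold res
  rw [map_sum]
  have key : ∀ a ∈ yy (Γ := Γ) x σ, hbMap d (s.incl x)
      ((s.sub x).bas d (s.lbl x f a) ((σ.erase a.1).map (tm x a)) u -
      (s.sub x).bas d ((s.kill x).comp (s.lbl x f a)) ((σ.erase a.1).map (tm x a)) u) =
      s.bas d f σ u := by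
    intro a ha
    rw [mem_yy] at ha
    rw [map_sub, bas_eq, bas_eq, bas_eq, map_alt, map_alt, alt_map, alt_map, ← alt_sub,
      alt_erase ha]
    apply alt_congr
    intro U hU
    rw [← hbMap_comp, ← hbMap_comp, s.k4 x hf ha hU, s.k5 x hf ha hU, hbMap_conj, hbMap_conj]
  rw [Finset.sum_congr rfl key, Finset.sum_const, Nat.cast_smul_eq_nsmul]

variable {E : GrpCat.{0} ⥤ ModuleCat.{0} ℚ} (α : ∀ b : B, hq (d b) ⟶ E)

/-- The property of the transfer. -/
def IsTr (Φ : E.obj (GrpCat.of s.G) →ₗ[ℚ] E.obj (GrpCat.of (s.sub x).G)) : Prop :=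
  ∀ (G₀ : Type) [Group G₀] (j : G₀ →* s.G) (Y : Finset (MulAction.orbit Γ x))
    (lc ld : MulAction.orbit Γ x → (G₀ →* (s.sub x).G)),
    (∀ a ∈ Y, ∀ g, (s.pairC x).σ (j g) a = a ∧ lc a g = (s.pairC x).c (j g) a ∧
      ld a g = (s.pairC x).d (j g) a) →
    (∀ a ∉ Y, ∀ g, (s.pairC x).c (j g) a = (s.pairC x).d (j g) a) → ∀ y : E.obj (GrpCat.of G₀),
      Φ (emap E j y) = ∑ a ∈ Y, (emap E (lc a) y - emap E (ld a) y)

theorem tr_bas {Φ : E.obj (GrpCat.of s.G) →ₗ[ℚ] E.obj (GrpCat.of (s.sub x).G)}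
    (hΦ : s.IsTr x Φ) (hf : s.Fix f σ) (u : HB d L) :
    Φ (tb d α s.G (s.bas d f σ u)) = tb d α (s.sub x).G (s.res x d f σ u) := by
  rw [bas_eq, map_alt, map_alt]
  have h1 : alt σ (fun U => Φ (tb d α s.G (hbMap d (s.cutT f (U : Set V)) u))) =
      alt σ (fun U => ∑ a ∈ yy (Γ := Γ) x σ,
        (emap E (s.lbl x (s.cutT f (U : Set V)) a) (tb d α L u) -
          emap E ((s.kill x).comp (s.lbl x (s.cutT f (U : Set V)) a)) (tb d α L u))) := by
    apply alt_congr
    intro U hU
    have hfc := hf.cut s hU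
    rw [← tb_nat]
    apply hΦ L (s.cutT f (U : Set V)) (yy x σ) (fun a => s.lbl x (s.cutT f (U : Set V)) a)
      (fun a => (s.kill x).comp (s.lbl x (s.cutT f (U : Set V)) a))
    · intro a ha l
      rw [mem_yy] at ha
      refine ⟨hfc.orb s x ha l, s.lbl_apply x (hfc.orb s x ha) l, ?_⟩
      change s.kill x (s.lbl x (s.cutT f (U : Set V)) a l) = s.kill x (s.cc x _ a)
      rw [s.lbl_apply x (hfc.orb s x ha) l]
    · intro a ha l
      rw [mem_yy] at ha
      apply s.cc_kill x _ a U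
      · rw [s.cutT_apply f _ (hf.smul s hU)]
        change s.e _ (s.e _ _) = s.e _ _
        rw [s.inter, Set.inter_self]
      · intro h
        apply ha
        have h2 : (s.orbPerm x (s.cutT f (U : Set V) l) a).1 ∈ σ := hU h
        have h3 := hfc l⁻¹ _ h2
        have h4 : (s.cutT f (U : Set V) l⁻¹).right • (s.orbPerm x (s.cutT f (U : Set V) l) a).1 =
            a.1 := by
          rw [orbPerm_coe, map_inv, SemidirectProduct.inv_right, inv_smul_smul]
        rw [h4] at h3
        rw [h3]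
        exact h2
  rw [h1, alt_sum]
  unfold res
  rw [map_sum]
  apply Finset.sum_congr rfl
  intro a ha
  rw [mem_yy] at ha
  rw [map_sub, bas_eq, bas_eq, map_alt, map_alt, alt_map, alt_map, ← alt_sub, alt_erase ha]
  apply alt_congr
  intro U hU
  have hU' : U ⊆ σ := hU.trans (Finset.erase_subset _ _)
  have hfix : (s.sub x).Fix (s.lbl x f a) (U.map (tm x a)) := s.fix_lbl x hf ha hU'
  rw [s.k3 x hf ha hU, sub_self, sub_zero, s.k1 x hf ha hU, s.kill_cutT x hfix, tb_nat, tb_nat]

end F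

end Sys

end Pool.Agent.Y483.PW
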