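import Pool.Agent.Y483.PW.Ind

/-!
The kernel formula for systems of supports: the end of the induction.
-/

namespace Pool.Agent.Y483.PW

open Pool.Agent.Y483 Pool.Agent.Y110.KW Pool.Agent.Y75.MQ CategoryTheory DirectSum Pointwise
open scoped Classical

namespace Sys

variable {Γ N V : Type} [Group Γ] [Group N] [MulAction Γ V] (s : Sys Γ N V) (x : V)

section Main

variable {B : Type} (d : B → ℕ) {E : GrpCat.{0} ⥤ ModuleCat.{0} ℚ} (α : ∀ b : B, hq (d b) ⟶ E)

/-- The subspace generated by the images of the kernels. -/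
noncomputable def WW (C : Finset V → Prop) : Submodule ℚ (HB d s.G) :=
  Submodule.span ℚ {y | ∃ (L : Type) (_ : Group L) (f : L →* s.G) (σ : Finset V) (u : HB d L),
    (∀ l, f l ∈ s.supG σ) ∧ C σ ∧ tb d α L u = 0 ∧ y = hbMap d f u}

/-- The subspace generated by the alternating sums over sets with at most `m` elements. -/
noncomputable def PM (C : Finset V → Prop) (m : ℕ) : Submodule ℚ (HB d s.G) :=
  Submodule.span ℚ {y | ∃ (L : Type) (_ : Group L) (f : L →* s.G) (σ : Finset V) (u : HB d L),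
    s.Fix f σ ∧ C σ ∧ σ.card ≤ m ∧ y = s.bas d f σ u}

theorem WW_ker (C : Finset V → Prop) {y : HB d s.G} (hy : y ∈ s.WW d α C) :
    tb d α s.G y = 0 := by
  have h : s.WW d α C ≤ LinearMap.ker (tb d α s.G) := by
    apply Submodule.span_le.mpr
    rintro y ⟨L, _, f, σ, u, _, _, hu, rfl⟩
    exact tb_map d α f hu
  exact h hy

theorem PM_mono (C : Finset V → Prop) {m m' : ℕ} (h : m ≤ m') : s.PM d C m ≤ s.PM d C m' := by
  apply Submodule.span_mono
  rintro y ⟨L, i, f, σ, u, h1, h2, h3, h4⟩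
  exact ⟨L, i, f, σ, u, h1, h2, h3.trans h, h4⟩

theorem WW_incl (C : Finset V → Prop) {y : HB d (s.sub x).G}
    (hy : y ∈ (s.sub x).WW d α (fun τ => C (insert x τ))) :
    hbMap d (s.incl x) y ∈ s.WW d α C := by
  have h : (s.sub x).WW d α (fun τ => C (insert x τ)) ≤
      (s.WW d α C).comap (hbMap d (s.incl x)) := by
    apply Submodule.span_le.mpr
    rintro y ⟨L, i, f, σ, u, h1, h2, h3, rfl⟩
    refine Submodule.subset_span ⟨L, i, (s.incl x).comp f, insert x σ, u, ?_, h2, h3, ?_⟩
    · intro l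
      refine ⟨?_, ?_⟩
      · have h4 := (h1 l).1
        change s.e (insert x (σ : Set V)) (f l).left = (f l).left at h4
        rw [Finset.coe_insert]
        exact h4
      · intro v hv
        rcases Finset.mem_insert.mp hv with rfl | hv
        · exact (f l).right.2
        · exact (h1 l).2 v hv
    · exact (hbMap_comp d (s.incl x) f u).symm
  exact h hy

theorem res_mem (C : Finset V → Prop)
    (hC : ∀ (γ : Γ) (σ : Finset V), C σ → C (σ.map ⟨fun v => γ • v, MulAction.injective γ⟩))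
    {L : Type} [Group L] {f : L →* s.G} {σ : Finset V} (hf : s.Fix f σ) (hσ : C σ) {m : ℕ}
    (hm : σ.card ≤ m + 1) (u : HB d L) :
    s.res x d f σ u ∈ (s.sub x).PM d (fun τ => C (insert x τ)) m := by
  unfold res
  apply Submodule.sum_mem
  intro a ha
  rw [mem_yy] at ha
  have hcard : ((σ.erase a.1).map (tm x a)).card ≤ m := by
    rw [Finset.card_map, Finset.card_erase_of_mem ha]
    omega
  have hCx : C (insert x ((σ.erase a.1).map (tm x a))) := by
    have h1 : insert x ((σ.erase a.1).map (tm x a)) = σ.map (tm x a) := by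
      have h2 : tm x a a.1 = x := by
        change (tt x a)⁻¹ • a.1 = x
        rw [inv_smul_eq_iff, tt_smul]
      have h3 : insert x ((σ.erase a.1).map (tm x a)) =
          insert (tm x a a.1) ((σ.erase a.1).map (tm x a)) := by rw [h2]
      rw [h3, ← Finset.map_insert, Finset.insert_erase ha]
    rw [h1]
    exact hC _ σ hσ
  have hfix := s.fix_lbl x hf ha (Finset.erase_subset a.1 σ)
  apply Submodule.sub_mem
  · exact Submodule.subset_span ⟨L, inferInstance, _, _, u, hfix, hCx, hcard, rfl⟩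
  · exact Submodule.subset_span ⟨L, inferInstance, _, _, u, s.fix_kill x hfix, hCx, hcard, rfl⟩

/-- The representative of the orbit. -/
noncomputable def rep (Γ : Type) [Group Γ] [MulAction Γ V] (v : V) : V :=
  Quotient.out (Quotient.mk (MulAction.orbitRel Γ V) v)

theorem rep_mem (v : V) : v ∈ MulAction.orbit Γ (rep Γ v) := by
  have h : (MulAction.orbitRel Γ V) (rep Γ v) v := Quotient.mk_out v
  have h2 := (MulAction.orbitRel Γ V).symm h
  exact h2

theorem rep_eq_iff {v x : V} (hx : rep Γ x = x) : rep Γ v = x ↔ v ∈ MulAction.orbit Γ x := by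
  constructor
  · intro h
    rw [← h]
    exact rep_mem v
  · intro h
    rw [← hx]
    unfold rep
    congr 1
    exact Quotient.sound h

theorem rep_rep (v : V) : rep Γ (rep Γ v) = rep Γ v := by
  unfold rep
  rw [Quotient.out_eq]

theorem sum_yy (R σ : Finset V) (hR : ∀ x ∈ R, rep Γ x = x) (hσ : ∀ v ∈ σ, rep Γ v ∈ R) :
    ∑ x ∈ R, (yy (Γ := Γ) x σ).card = σ.card := by
  rw [Finset.card_eq_sum_card_fiberwise (f := rep Γ) (t := R) hσ]
  apply Finset.sum_congr rfl
  intro x hx
  unfold yy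
  rw [Finset.card_subtype]
  congr 1
  ext v
  rw [Finset.mem_filter, Finset.mem_filter, rep_eq_iff (hR x hx)]

/-- The transfers of an element of `PM`. -/
theorem exists_res (C : Finset V → Prop)
    (hC : ∀ (γ : Γ) (σ : Finset V), C σ → C (σ.map ⟨fun v => γ • v, MulAction.injective γ⟩))
    (Φ : ∀ x : V, E.obj (GrpCat.of s.G) →ₗ[ℚ] E.obj (GrpCat.of (s.sub x).G))
    (hΦ : ∀ x, s.IsTr x (Φ x)) (m : ℕ) (z : HB d s.G) (hz : z ∈ s.PM d C (m + 1)) :
    ∃ (R₀ : Finset V) (v : ∀ x : V, HB d (s.sub x).G), (∀ x ∈ R₀, rep Γ x = x) ∧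
      (∀ x, Φ x (tb d α s.G z) = tb d α (s.sub x).G (v x)) ∧
      (∀ x, v x ∈ (s.sub x).PM d (fun τ => C (insert x τ)) m) ∧
      ∀ R : Finset V, R₀ ⊆ R → (∀ x ∈ R, rep Γ x = x) →
        ((m + 1 : ℕ) : ℚ) • z - ∑ x ∈ R, hbMap d (s.incl x) (v x) ∈ s.PM d C m := by
  unfold PM at hz
  induction hz using Submodule.span_induction with
  | mem y hy =>
    obtain ⟨L, _, f, σ, u, hf, hσ, hm, rfl⟩ := hy
    refine ⟨σ.image (rep Γ), fun x => s.res x d f σ u, ?_, fun x => s.tr_bas x d α (hΦ x) hf u,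
      fun x => s.res_mem x d C hC hf hσ hm u, ?_⟩
    · intro x hx
      obtain ⟨v, _, rfl⟩ := Finset.mem_image.mp hx
      exact rep_rep v
    · intro R hR hR'
      have h1 : ∑ x ∈ R, hbMap d (s.incl x) (s.res x d f σ u) =
          ((σ.card : ℕ) : ℚ) • s.bas d f σ u := by
        rw [Finset.sum_congr rfl fun x _ => s.incl_res x d hf u, ← Finset.sum_smul,
          ← Nat.cast_sum, sum_yy R σ hR' (fun v hv => hR (Finset.mem_image_of_mem _ hv))]
      rw [h1, ← sub_smul]
      by_cases hm' : σ.card ≤ m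
      · exact Submodule.smul_mem _ _
          (Submodule.subset_span ⟨L, inferInstance, f, σ, u, hf, hσ, hm', rfl⟩)
      · have h2 : σ.card = m + 1 := by omega
        rw [h2, sub_self, zero_smul]
        exact Submodule.zero_mem _
  | zero =>
    refine ⟨∅, fun _ => 0, fun x hx => absurd hx (Finset.notMem_empty x),
      fun x => by rw [map_zero, map_zero, map_zero], fun x => Submodule.zero_mem _, ?_⟩
    intro R _ _
    simp only [map_zero, Finset.sum_const_zero, smul_zero, sub_zero]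
    exact Submodule.zero_mem _
  | add y y' _ _ hy hy' =>
    obtain ⟨R₁, v₁, a1, a2, a3, a4⟩ := hy
    obtain ⟨R₂, v₂, b1, b2, b3, b4⟩ := hy'
    refine ⟨R₁ ∪ R₂, fun x => v₁ x + v₂ x, ?_, fun x => ?_, fun x => ?_, ?_⟩
    · intro x hx
      rcases Finset.mem_union.mp hx with h | h
      · exact a1 x h
      · exact b1 x h
    · rw [map_add, map_add, map_add, a2, b2]
    · exact Submodule.add_mem _ (a3 x) (b3 x)
    · intro R hR hR'
      have h1 := a4 R (Finset.subset_union_left.trans hR) hR'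
      have h2 := b4 R (Finset.subset_union_right.trans hR) hR'
      have h3 := Submodule.add_mem _ h1 h2
      rw [smul_add, Finset.sum_congr rfl fun x _ => map_add (hbMap d (s.incl x)) (v₁ x) (v₂ x),
        Finset.sum_add_distrib, add_sub_add_comm]
      exact h3
  | smul q y _ hy =>
    obtain ⟨R₁, v₁, a1, a2, a3, a4⟩ := hy
    refine ⟨R₁, fun x => q • v₁ x, a1, fun x => ?_, fun x => Submodule.smul_mem _ _ (a3 x), ?_⟩
    · rw [map_smul, map_smul, map_smul, a2]
    · intro R hR hR'
      have h1 := Submodule.smul_mem _ q (a4 R hR hR')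
      rw [Finset.sum_congr rfl fun x _ => map_smul (hbMap d (s.incl x)) q (v₁ x),
        ← Finset.smul_sum, smul_comm, ← smul_sub]
      exact h1

theorem smul_empty' {L : Type} [Group L] (f : L →* s.G) (l : L) :
    (f l).right • ((∅ : Finset V) : Set V) = ((∅ : Finset V) : Set V) := by
  rw [Finset.coe_empty, Set.smul_set_empty]

theorem cut_empty {L : Type} [Group L] (f : L →* s.G) :
    (s.cutT (MonoidHom.id s.G) ((∅ : Finset V) : Set V)).comp
      (s.cutT f ((∅ : Finset V) : Set V)) = s.cutT f ((∅ : Finset V) : Set V) := by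
  ext1 l
  rw [MonoidHom.comp_apply, s.cutT_apply f _ (s.smul_empty' f),
    s.cutT_apply (MonoidHom.id s.G) _ (s.smul_empty' (MonoidHom.id s.G))]
  apply SemidirectProduct.ext
  · change s.e _ (s.e _ _) = s.e _ _
    rw [s.inter, Set.inter_self]
  · rfl

theorem bas_empty {L : Type} [Group L] (f : L →* s.G) (u : HB d L) :
    s.bas d f ∅ u = hbMap d (s.cutT f ((∅ : Finset V) : Set V)) u := by
  unfold bas
  rw [Finset.powerset_empty, Finset.sum_singleton, Finset.card_empty, add_zero, pow_zero,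
    one_smul]

theorem PM_zero (C : Finset V → Prop) {z : HB d s.G} (hz : z ∈ s.PM d C 0)
    (h0 : tb d α s.G z = 0) : z ∈ s.WW d α C := by
  have h1 : z = hbMap d (s.cutT (MonoidHom.id s.G) ((∅ : Finset V) : Set V)) z ∧
      (z = 0 ∨ C ∅) := by
    clear h0
    unfold PM at hz
    induction hz using Submodule.span_induction with
    | mem y hy =>
      obtain ⟨L, _, f, σ, u, hf, hσ, hm, rfl⟩ := hy
      have hσ0 : σ = ∅ := Finset.card_eq_zero.mp (Nat.le_zero.mp hm)
      subst hσ0
      refine ⟨?_, Or.inr hσ⟩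
      rw [bas_empty, ← hbMap_comp, cut_empty]
    | zero => exact ⟨(map_zero _).symm, Or.inl rfl⟩
    | add y y' _ _ hy hy' =>
      refine ⟨by rw [map_add, ← hy.1, ← hy'.1], ?_⟩
      rcases hy.2 with h | h
      · rcases hy'.2 with h' | h'
        · left
          rw [h, h', add_zero]
        · exact Or.inr h'
      · exact Or.inr h
    | smul q y _ hy =>
      refine ⟨by rw [map_smul, ← hy.1], ?_⟩
      rcases hy.2 with h | h
      · left
        rw [h, smul_zero]
      · exact Or.inr h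
  rcases h1.2 with h | h
  · rw [h]
    exact Submodule.zero_mem _
  · refine Submodule.subset_span ⟨s.G, inferInstance,
      s.cutT (MonoidHom.id s.G) ((∅ : Finset V) : Set V), ∅, z, ?_, h, h0, h1.1⟩
    intro l
    rw [s.cutT_apply (MonoidHom.id s.G) _ (s.smul_empty' (MonoidHom.id s.G))]
    refine ⟨?_, fun v hv => absurd hv (Finset.notMem_empty v)⟩
    change s.e _ (s.e _ _) = s.e _ _
    rw [s.inter, Set.inter_self]

end Main

end Sys

theorem main_ind {N V : Type} [Group N] {B : Type} (d : B → ℕ)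
    {E : GrpCat.{0} ⥤ ModuleCat.{0} ℚ} (hE : HasPT E) (α : ∀ b : B, hq (d b) ⟶ E) (m : ℕ) :
    ∀ (Γ : Type) [Group Γ] [MulAction Γ V] (s : Sys Γ N V) (C : Finset V → Prop)
      (_ : ∀ (γ : Γ) (σ : Finset V), C σ → C (σ.map ⟨fun v => γ • v, MulAction.injective γ⟩))
      (z : HB d s.G), z ∈ s.PM d C m → tb d α s.G z = 0 → z ∈ s.WW d α C := by
  induction m with
  | zero =>
    intro Γ _ _ s C _ z hz h0
    exact s.PM_zero d α C hz h0
  | succ m ih =>
    intro Γ _ _ s C hC z hz h0
    have hex : ∀ x : V, ∃ Φ : E.obj (GrpCat.of s.G) →ₗ[ℚ] E.obj (GrpCat.of (s.sub x).G),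
        s.IsTr x Φ := fun x => hE s.G (MulAction.orbit Γ x) (s.sub x).G (s.pairC x)
    choose Φ hΦ using hex
    obtain ⟨R, v, hR, h1, h2, h3⟩ := s.exists_res d α C hC Φ hΦ m z hz
    have h4 := h3 R subset_rfl hR
    have h5 : ∑ x ∈ R, hbMap d (s.incl x) (v x) ∈ s.WW d α C := by
      apply Submodule.sum_mem
      intro x _
      apply s.WW_incl x d α C
      apply ih (MulAction.stabilizer Γ x) (s.sub x) (fun τ => C (insert x τ)) _ (v x) (h2 x)
      · rw [← h1, h0, map_zero]
      · intro γ σ hσ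
        have h6 := hC γ.1 _ hσ
        rw [Finset.map_insert] at h6
        have h7 : (⟨fun v => γ.1 • v, MulAction.injective γ.1⟩ : V ↪ V) x = x := γ.2
        rw [h7] at h6
        exact h6
    have h6 : tb d α s.G (((m + 1 : ℕ) : ℚ) • z - ∑ x ∈ R, hbMap d (s.incl x) (v x)) = 0 := by
      rw [map_sub, map_smul, h0, smul_zero, s.WW_ker d α C h5, sub_zero]
    have h7 := ih Γ s C hC _ h4 h6
    have h8 : ((m + 1 : ℕ) : ℚ) • z ∈ s.WW d α C := by
      have h9 := Submodule.add_mem _ h7 h5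
      rwa [sub_add_cancel] at h9
    have h9 := Submodule.smul_mem _ (((m + 1 : ℕ) : ℚ)⁻¹) h8
    rwa [smul_smul, inv_mul_cancel₀ (by positivity), one_smul] at h9

namespace Sys

variable {Γ N V : Type} [Group Γ] [Group N] [MulAction Γ V] (s : Sys Γ N V)

/-- **The kernel formula**, for classes which are sums of alternating sums. -/
theorem ker_gen {B : Type} (d : B → ℕ) {E : GrpCat.{0} ⥤ ModuleCat.{0} ℚ} (hE : HasPT E)
    (α : ∀ b : B, hq (d b) ⟶ E) (C : Finset V → Prop)
    (hC : ∀ (γ : Γ) (σ : Finset V), C σ → C (σ.map ⟨fun v => γ • v, MulAction.injective γ⟩))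
    (x : HB d s.G) (hx : tb d α s.G x = 0)
    (hspan : x ∈ Submodule.span ℚ {y | ∃ (L : Type) (_ : Group L) (f : L →* s.G) (σ : Finset V)
      (u : HB d L), s.Fix f σ ∧ C σ ∧ y = s.bas d f σ u}) :
    x ∈ ⨆ σ : {σ : Finset V // C σ}, (LinearMap.ker (tb d α (s.supG σ.1))).map
      (hbMap d (s.supG σ.1).subtype) := by
  have h1 : ∃ m, x ∈ s.PM d C m := by
    clear hx
    induction hspan using Submodule.span_induction with
    | mem y hy =>
      obtain ⟨L, i, f, σ, u, hf, hσ, rfl⟩ := hy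
      exact ⟨σ.card, Submodule.subset_span ⟨L, i, f, σ, u, hf, hσ, le_rfl, rfl⟩⟩
    | zero => exact ⟨0, Submodule.zero_mem _⟩
    | add y y' _ _ hy hy' =>
      obtain ⟨m, hm⟩ := hy
      obtain ⟨m', hm'⟩ := hy'
      exact ⟨max m m', Submodule.add_mem _ (s.PM_mono d C (le_max_left _ _) hm)
        (s.PM_mono d C (le_max_right _ _) hm')⟩
    | smul q y _ hy =>
      obtain ⟨m, hm⟩ := hy
      exact ⟨m, Submodule.smul_mem _ _ hm⟩
  obtain ⟨m, hm⟩ := h1
  have h2 := main_ind d hE α m Γ s C hC x hm hx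
  have h3 : s.WW d α C ≤ ⨆ σ : {σ : Finset V // C σ},
      (LinearMap.ker (tb d α (s.supG σ.1))).map (hbMap d (s.supG σ.1).subtype) := by
    apply Submodule.span_le.mpr
    rintro y ⟨L, _, f, σ, u, hf, hσ, hu, rfl⟩
    refine Submodule.mem_iSup_of_mem (⟨σ, hσ⟩ : {σ : Finset V // C σ}) ?_
    refine ⟨hbMap d (f.codRestrict (s.supG σ) hf) u, tb_map d α _ hu, ?_⟩
    rw [← hbMap_comp]
    rfl
  exact h3 h2

end Sys

end Pool.Agent.Y483.PW
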